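import Pool.Agent.Helper72.GP.GoalsB

/-!
# Project GP: the iteration
-/

set_option autoImplicit false

namespace Pool.Agent.Helper14.GP

open Pool.Agent.Helper72.GP
open Finset Polynomial
open scoped Classical

theorem hasGP_mono {P : Finset Pt} {r s : ℝ} (h : HasGP P r) (hs : s ≤ r) : HasGP P s := by
  obtain ⟨S, h1, h2, h3⟩ := h
  exact ⟨S, h1, h2, le_trans hs h3⟩

theorem rpow_step {n n' δ a b : ℝ} (hn : 1 ≤ n) (hn' : n ^ (1 - δ) ≤ n') (ha : 0 ≤ a)
    (hab : b ≤ (1 - δ) * a) : n ^ b ≤ n' ^ a := by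
  have h0 : (0 : ℝ) ≤ n := by linarith
  calc n ^ b ≤ n ^ ((1 - δ) * a) := Real.rpow_le_rpow_of_exponent_le hn hab
    _ = (n ^ (1 - δ)) ^ a := Real.rpow_mul h0 _ _
    _ ≤ n' ^ a := Real.rpow_le_rpow (Real.rpow_nonneg h0 _) hn' ha

theorem iter (hONES : ONES) (hTRANS : TRANS) : ITER := by
  intro k
  induction k with
  | zero =>
    intro C δ _ _ _
    refine ⟨2, ?_⟩
    intro P N t hP hB _ hN _ _ _
    exfalso
    have h1 : (N : ℝ) < 1 := by
      simpa using hN
    have h2 : N = 0 := by
      have : N < 1 := by exact_mod_cast h1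
      omega
    subst h2
    have h3 : P ⊆ {((0 : ℤ), (0 : ℤ))} := by
      intro p hp
      obtain ⟨a, b, c, d⟩ := hB p hp
      rw [Finset.mem_singleton]
      apply Prod.ext
      · simp only [Nat.cast_zero] at b
        exact le_antisymm b a
      · simp only [Nat.cast_zero] at d
        exact le_antisymm d c
    have h4 := Finset.card_le_card h3
    rw [Finset.card_singleton] at h4
    omega
  | succ k ih =>
    intro C δ hC hδ hδ2
    have hk64 : (k : ℝ) + 1 ≤ 64 ^ k := by
      have h1 : k < 2 ^ k := Nat.lt_two_pow_self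
      have h2 : 2 ^ k ≤ 64 ^ k := Nat.pow_le_pow_left (by norm_num) k
      have h3 : k + 1 ≤ 64 ^ k := by omega
      exact_mod_cast h3
    have hpos : (0 : ℝ) < 64 ^ k := by positivity
    have hδ3 : 64 * δ ≤ 1 / (100 * 64 ^ k) := by
      rw [pow_succ] at hδ2
      have : (1 : ℝ) / (100 * (64 ^ k * 64)) = (1 / (100 * 64 ^ k)) / 64 := by
        field_simp
      rw [this] at hδ2
      linarith
    have hδk : δ * (100 * 64 ^ k) ≤ 1 / 64 := by
      have h1 := (le_div_iff₀ (by positivity : (0 : ℝ) < 100 * 64 ^ k)).mp hδ3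
      linarith
    have hδ4 : δ * ((k : ℝ) + 1) ≤ 1 / 6400 := by
      have h1 : δ * ((k : ℝ) + 1) ≤ δ * 64 ^ k := mul_le_mul_of_nonneg_left hk64 hδ.le
      linarith
    have hk0 : (0 : ℝ) ≤ k := Nat.cast_nonneg k
    have hδ5 : δ ≤ 1 / 6400 := by nlinarith
    obtain ⟨n3, h3⟩ := hONES C δ hC hδ (by linarith)
    obtain ⟨n4, h4⟩ := ih (2 * C) (64 * δ) (by omega) (by linarith) hδ3
    refine ⟨max n3 (n4 ^ 2 + 1), ?_⟩
    intro P N t hP hB hNC hN hT ht ht2
    have hPn3 : n3 ≤ P.card := le_trans (le_max_left _ _) hP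
    have hPn4 : n4 ^ 2 + 1 ≤ P.card := le_trans (le_max_right _ _) hP
    have hn1 : (1 : ℝ) ≤ (P.card : ℝ) := by
      have : 1 ≤ P.card := by
        have := Nat.zero_le (n4 ^ 2)
        omega
      exact_mod_cast this
    rcases h3 P N t hPn3 hB hNC hT ht ht2 with hgp | ⟨h, hh, x, hx, hcls⟩
    · apply hasGP_mono hgp
      apply Real.rpow_le_rpow_of_exponent_le hn1
      linarith
    · have hh1 : (1 : ℝ) ≤ h := le_trans (Real.one_le_rpow hn1 (by norm_num)) hh
      have hh1' : 1 ≤ h := by exact_mod_cast hh1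
      obtain ⟨Q, hQ1, hQ2, hQ3, hQ4, _⟩ := hTRANS P N h x hB hh1' hx
      rw [← hQ1] at hcls
      have hstep : ∀ a b : ℝ, 0 ≤ a → b ≤ (1 - δ) * a →
          (P.card : ℝ) ^ b ≤ (Q.card : ℝ) ^ a :=
        fun a b ha hab => rpow_step hn1 hcls.le ha hab
      have hQcard : n4 ≤ Q.card := by
        have h5 : (P.card : ℝ) ^ ((1 : ℝ) / 2) ≤ (Q.card : ℝ) ^ (1 : ℝ) :=
          hstep 1 (1 / 2) (by norm_num) (by linarith)
        rw [Real.rpow_one, ← Real.sqrt_eq_rpow] at h5
        have h6 : (n4 : ℝ) ≤ Real.sqrt P.card := by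
          apply Real.le_sqrt_of_sq_le
          have : n4 ^ 2 ≤ P.card := by omega
          exact_mod_cast this
        exact_mod_cast le_trans h6 h5
      have hNdiv : ((N / h : ℕ) : ℝ) ≤ (N : ℝ) / h := Nat.cast_div_le
      have hN0 : (0 : ℝ) ≤ N := Nat.cast_nonneg N
      have hNle : ((N / h : ℕ) : ℝ) ≤ N := by
        exact_mod_cast Nat.div_le_self N h
      have hg : HasGP Q ((Q.card : ℝ) ^ (1 / 2 + 64 * δ / 64)) := by
        apply h4 Q (N / h) t hQcard hQ2
        · calc ((N / h : ℕ) : ℝ) ≤ N := hNle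
            _ ≤ (P.card : ℝ) ^ C := hNC
            _ = (P.card : ℝ) ^ (C : ℝ) := (Real.rpow_natCast _ _).symm
            _ ≤ (Q.card : ℝ) ^ ((2 * C : ℕ) : ℝ) := by
                apply hstep
                · positivity
                · push_cast
                  have hC' : (1 : ℝ) ≤ C := by exact_mod_cast hC
                  nlinarith
            _ = (Q.card : ℝ) ^ (2 * C) := Real.rpow_natCast _ _
        · have h7 : (N : ℝ) / h < (P.card : ℝ) ^ (((k : ℝ) - 1) / 192) := by
            have hpp : (0 : ℝ) < (P.card : ℝ) ^ ((1 : ℝ) / 96) :=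
              Real.rpow_pos_of_pos (by linarith) _
            calc (N : ℝ) / h ≤ (N : ℝ) / (P.card : ℝ) ^ ((1 : ℝ) / 96) :=
                  div_le_div_of_nonneg_left hN0 hpp hh
              _ < (P.card : ℝ) ^ (((k + 1 : ℕ) : ℝ) / 192) / (P.card : ℝ) ^ ((1 : ℝ) / 96) :=
                  div_lt_div_of_pos_right hN hpp
              _ = (P.card : ℝ) ^ (((k + 1 : ℕ) : ℝ) / 192 - 1 / 96) :=
                  (Real.rpow_sub (by linarith) _ _).symm
              _ = (P.card : ℝ) ^ (((k : ℝ) - 1) / 192) := by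
                  congr 1
                  push_cast
                  ring
          refine lt_of_le_of_lt hNdiv (lt_of_lt_of_le h7 ?_)
          apply hstep
          · positivity
          · nlinarith
        · exact hQ3 t hT
        · exact ht
        · refine le_trans ht2 ?_
          apply hstep
          · positivity
          · nlinarith
      apply hasGP_mono (hQ4 _ hg)
      apply hstep
      · positivity
      · nlinarith

end Pool.Agent.Helper14.GP
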